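import Mathlib
import Pool.Agent.NH24.GU.G

/-!
# MP_03df5c_nt: relations of growing degree between real multiple zeta values

Polynomial relations of degree up to `D = c log N / log log N` between the multiple zeta values
`ζ(a_1 N + b_1, ..., a_r N + b_r)`, `b_i ≤ (log N) ^ a`, where `ζ(a_1 N + b_1, ..., a_r N + b_r)` has the degree
`a_1 + ... + a_r`, with integer coefficients of total size at most `2 ^ (N ^ γ)`, `γ < 1`, hold in every
commutative ring for every family with the stuffle product, for example for the `p`-adic multiple zeta values,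
for all primes `p`. The degree, the depth and the number of the values are not bounded.
-/

set_option autoImplicit false

namespace Pool.Agent.Results.MP_03df5c_nt.GrowingDegree

/-- `trunc [s_1, ..., s_r] m` is the sum of `∏ n_i ^ (-s_i)` over `m > n_1 > ... > n_r ≥ 1` -/
noncomputable def trunc : List ℕ → ℕ → ℝ
  | [], _ => 1
  | s :: l, m => ∑ j ∈ Finset.Ico 1 m, trunc l j / (j : ℝ) ^ s

/-- the multiple zeta value `ζ(s_1, ..., s_r)`, `s_1` belongs to the largest variable -/
noncomputable def mzv : List ℕ → ℝ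
  | [] => 1
  | s :: l => ∑' m : ℕ, trunc l (m + 1) / ((m + 1 : ℕ) : ℝ) ^ s

/-- admissible indices: `(s_1, ..., s_r)` with `r ≥ 1`, `s_1 ≥ 2` and all `s_i ≥ 1` -/
def AdmissibleIndex : List ℕ → Prop
  | [] => False
  | s :: l => 2 ≤ s ∧ ∀ t ∈ l, 1 ≤ t

/-- the number of arguments `≥ 2` -/
def height (w : List ℕ) : ℕ := w.countP (fun s => decide (2 ≤ s))

/-- the list of the indices in the stuffle (series) product of two indices -/
def stuffles : List ℕ → List ℕ → List (List ℕ)
  | [], l => [l]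
  | i :: k, [] => [i :: k]
  | i :: k, j :: l => (stuffles k (j :: l)).map (i :: ·) ++ (stuffles (i :: k) l).map (j :: ·) ++
      (stuffles k l).map ((i + j) :: ·)
termination_by k l => k.length + l.length

/-- `Z` has the stuffle product: `Z(k) Z(l) = ∑ Z(m)` over the indices `m` of the stuffle product
of `k` and `l`, for all admissible indices `k` and `l` -/
def HasStuffleProduct {A : Type} [CommRing A] (Z : List ℕ → A) : Prop :=
  ∀ k l : List ℕ, AdmissibleIndex k → AdmissibleIndex l →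
    Z k * Z l = ((stuffles k l).map Z).sum

/-- words; the letter `(a, b)` stands for the argument `a N + b` -/
abbrev Word := List (ℕ × ℕ)

/-- the index `(a_1 N + b_1, ..., a_r N + b_r)` of a word -/
def index (N : ℕ) (w : Word) : List ℕ := w.map fun y => y.1 * N + y.2

/-- the sum `a_1 + ... + a_r` -/
def size (w : Word) : ℕ := (w.map Prod.fst).sum

/-- polynomials in the variables `X_w`, `w` a word `(a_1, b_1) ... (a_r, b_r)` with `r ≥ 1`, `a_i ≥ 1`
and `b_i ≤ J`, of degree at most `D` if `X_w` has degree `a_1 + ... + a_r` -/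
def Near (D J : ℕ) (f : MvPolynomial Word ℤ) : Prop :=
  ∀ m ∈ f.support, (∀ w ∈ m.support, w ≠ [] ∧ ∀ y ∈ w, 1 ≤ y.1 ∧ y.2 ≤ J) ∧
    ∑ w ∈ m.support, m w * size w ≤ D

lemma trunc_eq (w : List ℕ) : ∀ m, trunc w m = Pool.Agent.Y760.ZG.hr w m := by
  induction w with
  | nil => intro m; rw [trunc, Pool.Agent.Y760.ZG.hr_nil]
  | cons s w ih =>
    intro m
    rw [trunc, Pool.Agent.Y760.ZG.hr_cons]
    exact Finset.sum_congr rfl fun j _ => by rw [ih]

lemma mzv_eq : mzv = Pool.Agent.Y760.ZG.mz := by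
  funext w
  cases w with
  | nil => rw [mzv, Pool.Agent.Y760.ZG.mz]
  | cons s w =>
    rw [mzv, Pool.Agent.Y760.ZG.mz]
    exact tsum_congr fun m => by rw [trunc_eq]

lemma adm_iff (u : List ℕ) : Pool.Agent.Y777.AM.St.Ad u ↔ AdmissibleIndex u := by
  cases u with
  | nil => exact Iff.rfl
  | cons s l => exact Iff.rfl

lemma adm_small {u : List ℕ} (h : AdmissibleIndex u) :
    (∀ m ∈ u, 1 ≤ m) ∧ ∀ x ∈ u.head?, 2 ≤ x := by
  cases u with
  | nil => exact h.elim
  | cons s l =>
    refine ⟨fun m hm => ?_, fun x hx => ?_⟩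
    · rcases List.mem_cons.1 hm with rfl | hm
      · exact le_trans (by norm_num) h.1
      · exact h.2 m hm
    · rw [List.head?_cons, Option.mem_def, Option.some.injEq] at hx
      rw [← hx]
      exact h.1

lemma stuffles_eq (u v : List ℕ) : stuffles u v = Pool.Agent.Y760.ZF.sti u v := by
  induction u, v using Pool.Agent.Y760.ZF.sti.induct with
  | case1 v => rw [stuffles, Pool.Agent.Y760.ZF.sti]
  | case2 x u => rw [stuffles, Pool.Agent.Y760.ZF.sti]
  | case3 x u y v ih1 ih2 ih3 => rw [stuffles, Pool.Agent.Y760.ZF.sti, ih1, ih2, ih3]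

/-- Let `a ≥ 0`, `0 < γ < 1`, `ε > 0`, and let `κ`, `C` be real. There is `c > 0` such that for all large `N`, all
`D` with `D log log N ≤ c log N`, all `J ≤ (log N) ^ a`, all integer polynomials `f` as in the definition of `Near`
whose coefficients have total size at most `2 ^ (N ^ γ)`, all finite sets `H` of admissible indices of weight at
most `κ N` with at least `ε N` arguments `≥ 2` and all real `b_h` with `|b_h| ≤ C ^ N`: if
`|f(ζ) - ∑_H b_h ζ(h)| ≤ N ^ (-ε N)`, where `X_w` is evaluated at `ζ(index N w)`, then `f(ζ) = 0` and `f(Z) = 0`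
for all commutative rings `A` and all functions `Z` from the indices to `A` that have the stuffle product. -/
theorem result (a γ ε κ C : ℝ) (ha : 0 ≤ a) (hγ0 : 0 < γ) (hγ1 : γ < 1) (hε : 0 < ε) :
    ∃ c : ℝ, 0 < c ∧ ∃ N0 : ℕ, ∀ N : ℕ, N0 ≤ N → ∀ D J : ℕ,
      (D : ℝ) * Real.log (Real.log N) ≤ c * Real.log N → (J : ℝ) ≤ (Real.log N) ^ a →
      ∀ f : MvPolynomial Word ℤ, Near D J f →
      ∑ m ∈ f.support, |((f.coeff m : ℤ) : ℝ)| ≤ (2 : ℝ) ^ ((N : ℝ) ^ γ) →
      ∀ H : Finset (List ℕ),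
      (∀ h ∈ H, AdmissibleIndex h ∧ (h.sum : ℝ) ≤ κ * N ∧ ε * N ≤ height h) →
      ∀ b : List ℕ → ℝ, (∀ h ∈ H, |b h| ≤ C ^ N) →
      |MvPolynomial.aeval (fun w => mzv (index N w)) f - ∑ h ∈ H, b h * mzv h| ≤
        ((N : ℝ) ^ (ε * N))⁻¹ →
      MvPolynomial.aeval (fun w => mzv (index N w)) f = 0 ∧
        ∀ (A : Type) [CommRing A] (Z : List ℕ → A), HasStuffleProduct Z →
          MvPolynomial.aeval (fun w => Z (index N w)) f = 0 := by
  rw [mzv_eq]
  obtain ⟨c, hc, N0, h0⟩ := Pool.Agent.NH24.GU.poly one_pos Pool.Agent.NH24.GU.meas_one κ C ha hγ0 hγ1 hε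
  refine ⟨c, hc, N0, fun N hN D J hD hJ f hf hfC H hH b hb hs => ?_⟩
  obtain ⟨h1, h2⟩ := h0 N hN D J hD hJ (fun _ => f) (fun _ => hf) (fun _ => hfC) H
    (fun h hh => ⟨(adm_small (hH h hh).1).1, (adm_small (hH h hh).1).2, (hH h hh).2.1, (hH h hh).2.2⟩) b hb
    (by
      rw [Fin.sum_univ_one, Matrix.cons_val_fin_one, one_mul]
      exact hs) 0
  refine ⟨h1, fun A _ Z hZ => h2 A Z fun u v hu hv => ?_⟩
  rw [hZ u v ((adm_iff u).1 hu) ((adm_iff v).1 hv), stuffles_eq]

end Pool.Agent.Results.MP_03df5c_nt.GrowingDegree
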