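import Mathlib
import Pool.Agent.NH24.GP.P

/-!
# MP_03df5c_nt: isobaric relations between multiple zeta values near a rational grid

Let `b ≥ 2`, `t, γ > 0` and `(b - 1) t + γ < 1`. For large `k`, every isobaric polynomial relation of weight `k`
with integer coefficients of total size at most `2 ^ (k ^ γ)` between the real multiple zeta values all of whose
arguments are within `k ^ t / b` of positive integral multiples of `k / b` holds in every commutative ring for
every family with the stuffle product, for example for the `p`-adic multiple zeta values, for all primes `p`.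
-/

set_option autoImplicit false

namespace Pool.Agent.Results.MP_03df5c_nt.IsobaricRelations

/-- `trunc [s_1, ..., s_r] m` is the sum of `∏ n_i ^ (-s_i)` over `m > n_1 > ... > n_r ≥ 1` -/
noncomputable def trunc : List ℕ → ℕ → ℝ
  | [], _ => 1
  | s :: l, m => ∑ j ∈ Finset.Ico 1 m, trunc l j / (j : ℝ) ^ s

/-- the multiple zeta value `ζ(s_1, ..., s_r)`, `s_1` belongs to the largest variable -/
noncomputable def mzv : List ℕ → ℝ
  | [] => 1
  | s :: l => ∑' m : ℕ, trunc l (m + 1) / ((m + 1 : ℕ) : ℝ) ^ s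

/-- admissible indices: `(s_1, ..., s_r)` with `r ≥ 1`, `s_1 ≥ 2` and all `s_i ≥ 1` -/
def AdmissibleIndex : List ℕ → Prop
  | [] => False
  | s :: l => 2 ≤ s ∧ ∀ t ∈ l, 1 ≤ t

/-- the number of arguments `≥ 2` -/
def height (w : List ℕ) : ℕ := w.countP (fun s => decide (2 ≤ s))

/-- the list of the indices in the stuffle (series) product of two indices -/
def stuffles : List ℕ → List ℕ → List (List ℕ)
  | [], l => [l]
  | i :: k, [] => [i :: k]
  | i :: k, j :: l => (stuffles k (j :: l)).map (i :: ·) ++ (stuffles (i :: k) l).map (j :: ·) ++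
      (stuffles k l).map ((i + j) :: ·)
termination_by k l => k.length + l.length

/-- `Z` has the stuffle product: `Z(k) Z(l) = ∑ Z(m)` over the indices `m` of the stuffle product
of `k` and `l`, for all admissible indices `k` and `l` -/
def HasStuffleProduct {A : Type} [CommRing A] (Z : List ℕ → A) : Prop :=
  ∀ k l : List ℕ, AdmissibleIndex k → AdmissibleIndex l →
    Z k * Z l = ((stuffles k l).map Z).sum

/-- every argument of the index is within `k ^ t / b` of a positive integral multiple of `k / b` -/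
def NearGrid (b k : ℕ) (t : ℝ) (w : List ℕ) : Prop :=
  w ≠ [] ∧ ∀ x ∈ w, ∃ a : ℕ, 1 ≤ a ∧ |(b : ℝ) * x - a * k| ≤ (k : ℝ) ^ t

/-- polynomials in the variables `X_w` for the indices `w` near the grid, isobaric of weight `k`, where the
weight of `X_w` is the sum of the arguments of `w` -/
def Isobaric (b k : ℕ) (t : ℝ) (f : MvPolynomial (List ℕ) ℤ) : Prop :=
  ∀ m ∈ f.support, (∀ w ∈ m.support, NearGrid b k t w) ∧ ∑ w ∈ m.support, m w * w.sum = k

lemma trunc_eq (w : List ℕ) : ∀ m, trunc w m = Pool.Agent.Y760.ZG.hr w m := by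
  induction w with
  | nil => intro m; rw [trunc, Pool.Agent.Y760.ZG.hr_nil]
  | cons s w ih =>
    intro m
    rw [trunc, Pool.Agent.Y760.ZG.hr_cons]
    exact Finset.sum_congr rfl fun j _ => by rw [ih]

lemma mzv_eq : mzv = Pool.Agent.Y760.ZG.mz := by
  funext w
  cases w with
  | nil => rw [mzv, Pool.Agent.Y760.ZG.mz]
  | cons s w =>
    rw [mzv, Pool.Agent.Y760.ZG.mz]
    exact tsum_congr fun m => by rw [trunc_eq]

lemma trunc_eq' (w : List ℕ) : ∀ m, trunc w m = Pool.Agent.NH24.GD.trunc w m := by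
  induction w with
  | nil =>
    intro m
    rw [trunc, Pool.Agent.NH24.GD.trunc]
  | cons s w ih =>
    intro m
    rw [trunc, Pool.Agent.NH24.GD.trunc]
    exact Finset.sum_congr rfl fun j _ => by rw [ih]

lemma mzv_eq' : mzv = Pool.Agent.NH24.GD.mzv := by
  funext w
  cases w with
  | nil => rw [mzv, Pool.Agent.NH24.GD.mzv]
  | cons s w =>
    rw [mzv, Pool.Agent.NH24.GD.mzv]
    exact tsum_congr fun m => by rw [trunc_eq']

lemma adm_iff (u : List ℕ) : Pool.Agent.Y777.AM.St.Ad u ↔ AdmissibleIndex u := by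
  cases u with
  | nil => exact Iff.rfl
  | cons s l => exact Iff.rfl

lemma adm_small {u : List ℕ} (h : AdmissibleIndex u) :
    (∀ m ∈ u, 1 ≤ m) ∧ ∀ x ∈ u.head?, 2 ≤ x := by
  cases u with
  | nil => exact h.elim
  | cons s l =>
    refine ⟨fun m hm => ?_, fun x hx => ?_⟩
    · rcases List.mem_cons.1 hm with rfl | hm
      · exact le_trans (by norm_num) h.1
      · exact h.2 m hm
    · rw [List.head?_cons, Option.mem_def, Option.some.injEq] at hx
      rw [← hx]
      exact h.1

lemma stuffles_eq (u v : List ℕ) : stuffles u v = Pool.Agent.Y760.ZF.sti u v := by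
  induction u, v using Pool.Agent.Y760.ZF.sti.induct with
  | case1 v => rw [stuffles, Pool.Agent.Y760.ZF.sti]
  | case2 x u => rw [stuffles, Pool.Agent.Y760.ZF.sti]
  | case3 x u y v ih1 ih2 ih3 => rw [stuffles, Pool.Agent.Y760.ZF.sti, ih1, ih2, ih3]

/-- Let `b ≥ 2`, `t, γ > 0`, `(b - 1) t + γ < 1`, `(b - 1) t < b ε`, and let `κ`, `C` be real. For all large `k`,
all polynomials `f` with integer coefficients of total size at most `2 ^ (k ^ γ)`, isobaric of weight `k`, in
variables `X_w`, `w` an index whose arguments are within `k ^ t / b` of positive integral multiples of `k / b`,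
all finite sets `H` of admissible indices of weight at most `κ k` with at least `ε k` arguments `≥ 2` and all
real `β_h` with `|β_h| ≤ C ^ k`: if `|f(ζ) - ∑_H β_h ζ(h)| ≤ k ^ (-ε k)`, then `f(ζ) = 0`, and `f(Z) = 0` for
all commutative rings `A` and all functions `Z` from the indices to `A` that have the stuffle product. -/
theorem result (b : ℕ) (hb : 2 ≤ b) (t γ ε κ C : ℝ) (ht : 0 < t) (hγ : 0 < γ)
    (h : ((b : ℝ) - 1) * t + γ < 1) (hε : ((b : ℝ) - 1) * t < b * ε) :
    ∃ k0 : ℕ, ∀ k : ℕ, k0 ≤ k →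
      ∀ f : MvPolynomial (List ℕ) ℤ, Isobaric b k t f →
      ∑ m ∈ f.support, |((f.coeff m : ℤ) : ℝ)| ≤ (2 : ℝ) ^ ((k : ℝ) ^ γ) →
      ∀ H : Finset (List ℕ),
      (∀ h ∈ H, AdmissibleIndex h ∧ (h.sum : ℝ) ≤ κ * k ∧ ε * k ≤ height h) →
      ∀ β : List ℕ → ℝ, (∀ h ∈ H, |β h| ≤ C ^ k) →
      |MvPolynomial.aeval mzv f - ∑ h ∈ H, β h * mzv h| ≤ ((k : ℝ) ^ (ε * k))⁻¹ →
      MvPolynomial.aeval mzv f = 0 ∧
        ∀ (A : Type) [CommRing A] (Z : List ℕ → A), HasStuffleProduct Z →
          MvPolynomial.aeval Z f = 0 := by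
  obtain ⟨k0, h0⟩ := Pool.Agent.NH24.GP.poly hb κ C ht hγ h hε (by rw [← mzv_eq', mzv_eq])
  rw [mzv_eq]
  refine ⟨k0, fun k hk f hf hfC H hH β hβ hs => ?_⟩
  obtain ⟨h1, h2⟩ := h0 k hk f (fun m hm => by
    obtain ⟨g1, g2⟩ := hf m hm
    refine ⟨fun w hw => ⟨(g1 w hw).1, fun x hx => ?_⟩, g2⟩
    obtain ⟨a, g3, g4⟩ := (g1 w hw).2 x hx
    exact ⟨a, g3, Pool.Agent.NH24.GD.near_of (by positivity) g4⟩) hfC H (fun h hh => ⟨(adm_small (hH h hh).1).1,
    (adm_small (hH h hh).1).2, (hH h hh).2.1, (hH h hh).2.2⟩) β hβ hs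
  refine ⟨h1, fun A _ Z hZ => h2 A Z fun u v hu hv => ?_⟩
  rw [hZ u v ((adm_iff u).1 hu) ((adm_iff v).1 hv), stuffles_eq]

end Pool.Agent.Results.MP_03df5c_nt.IsobaricRelations
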