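import Mathlib
import Pool.Agent.NH24.DM.PMain

/-!
# MP_03df5c_nt: relations between real multiple zeta values on boundedly many lines

Polynomial relations of weight `k` between multiple zeta values with bounded integer coefficients, whose monomials
lie on boundedly many lines: in a line all arguments of the monomial are affine functions `x + y t` of an integer
`0 ≤ t ≤ c k` with bounded integral slopes `y`. The lines have arbitrary positions, all arguments are at least
`δ k`. Such relations hold in every commutative ring for every family with the stuffle product, for example for the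
`p`-adic multiple zeta values, for all primes `p`.
-/

set_option autoImplicit false

namespace Pool.Agent.Results.MP_03df5c_nt.RelationsOnLines

/-- `trunc [s_1, ..., s_r] m` is the sum of `∏ n_i ^ (-s_i)` over `m > n_1 > ... > n_r ≥ 1` -/
noncomputable def trunc : List ℕ → ℕ → ℝ
  | [], _ => 1
  | s :: l, m => ∑ j ∈ Finset.Ico 1 m, trunc l j / (j : ℝ) ^ s

/-- the multiple zeta value `ζ(s_1, ..., s_r)`, `s_1` belongs to the largest variable -/
noncomputable def mzv : List ℕ → ℝ
  | [] => 1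
  | s :: l => ∑' m : ℕ, trunc l (m + 1) / ((m + 1 : ℕ) : ℝ) ^ s

/-- admissible indices: `(s_1, ..., s_r)` with `r ≥ 1`, `s_1 ≥ 2` and all `s_i ≥ 1` -/
def AdmissibleIndex : List ℕ → Prop
  | [] => False
  | s :: l => 2 ≤ s ∧ ∀ t ∈ l, 1 ≤ t

/-- the number of arguments `≥ 2` -/
def height (w : List ℕ) : ℕ := w.countP (fun s => decide (2 ≤ s))

/-- the list of the indices in the stuffle (series) product of two indices -/
def stuffles : List ℕ → List ℕ → List (List ℕ)
  | [], l => [l]
  | i :: k, [] => [i :: k]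
  | i :: k, j :: l => (stuffles k (j :: l)).map (i :: ·) ++ (stuffles (i :: k) l).map (j :: ·) ++
      (stuffles k l).map ((i + j) :: ·)
termination_by k l => k.length + l.length

/-- `Z` has the stuffle product: `Z(k) Z(l) = ∑ Z(m)` over the indices `m` of the stuffle product
of `k` and `l`, for all admissible indices `k` and `l` -/
def HasStuffleProduct {A : Type} [CommRing A] (Z : List ℕ → A) : Prop :=
  ∀ k l : List ℕ, AdmissibleIndex k → AdmissibleIndex l →
    Z k * Z l = ((stuffles k l).map Z).sum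

lemma trunc_eq (w : List ℕ) : ∀ m, trunc w m = Pool.Agent.Y760.ZG.hr w m := by
  induction w with
  | nil => intro m; rw [trunc, Pool.Agent.Y760.ZG.hr_nil]
  | cons s w ih =>
    intro m
    rw [trunc, Pool.Agent.Y760.ZG.hr_cons]
    exact Finset.sum_congr rfl fun j _ => by rw [ih]

lemma mzv_eq : mzv = Pool.Agent.Y760.ZG.mz := by
  funext w
  cases w with
  | nil => rw [mzv, Pool.Agent.Y760.ZG.mz]
  | cons s w =>
    rw [mzv, Pool.Agent.Y760.ZG.mz]
    exact tsum_congr fun m => by rw [trunc_eq]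

lemma adm_iff (u : List ℕ) : Pool.Agent.Y777.AM.St.Ad u ↔ AdmissibleIndex u := by
  cases u with
  | nil => exact Iff.rfl
  | cons s l => exact Iff.rfl

lemma adm_small {u : List ℕ} (h : AdmissibleIndex u) :
    (∀ m ∈ u, 1 ≤ m) ∧ ∀ x ∈ u.head?, 2 ≤ x := by
  cases u with
  | nil => exact h.elim
  | cons s l =>
    refine ⟨fun m hm => ?_, fun x hx => ?_⟩
    · rcases List.mem_cons.1 hm with rfl | hm
      · exact le_trans (by norm_num) h.1
      · exact h.2 m hm
    · rw [List.head?_cons, Option.mem_def, Option.some.injEq] at hx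
      rw [← hx]
      exact h.1

lemma stuffles_eq (u v : List ℕ) : stuffles u v = Pool.Agent.Y760.ZF.sti u v := by
  induction u, v using Pool.Agent.Y760.ZF.sti.induct with
  | case1 v => rw [stuffles, Pool.Agent.Y760.ZF.sti]
  | case2 x u => rw [stuffles, Pool.Agent.Y760.ZF.sti]
  | case3 x u y v ih1 ih2 ih3 => rw [stuffles, Pool.Agent.Y760.ZF.sti, ih1, ih2, ih3]

/-- Let `δ, ε > 0`, let `H`, `κ`, `K` be real and `s`, `D` natural numbers. There are `c > 0` and `B > 1` such that
for all large `k`, all monomials `F_i` (`i < s`), lists of nonempty words with letters `(x, y)`, `|y| ≤ D`, all finite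
sets `I_i` of natural numbers `t ≤ c k` and all integers `a_(i,t)` with `|a_(i,t)| ≤ H` such that, for `t ∈ I_i`, the
product `L_(i,t)` of words obtained from `F_i` by the substitution of `x + y t` for the letters `(x, y)` has weight
`k` and all arguments `≥ δ k`: if `f(ζ) = ∑_i ∑_(t ∈ I_i) a_(i,t) ∏_(w ∈ L_(i,t)) ζ(w)` satisfies
`|f(ζ) - ∑_(h ∈ G) b_h ζ(h)| ≤ B ^ (-k)` for a finite set `G` of admissible indices of weight at most `κ k` with at
least `ε k` arguments `≥ 2` and real `b_h` with `|b_h| ≤ K ^ k`, then `f(ζ) = 0` and `f(Z) = 0` for all commutative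
rings `A` and all functions `Z` from the indices to `A` that have the stuffle product. -/
theorem result (δ H ε κ K : ℝ) (hδ : 0 < δ) (hε : 0 < ε) (s D : ℕ) :
    ∃ c B : ℝ, 0 < c ∧ 1 < B ∧ ∃ k0 : ℕ, ∀ k : ℕ, k0 ≤ k →
      ∀ (F : Fin s → List (List (ℤ × ℤ))) (I : Fin s → Finset ℕ) (L : Fin s → ℕ → List (List ℕ))
        (a : Fin s → ℕ → ℤ),
      (∀ i, ∀ w ∈ F i, w ≠ [] ∧ ∀ z ∈ w, |z.2| ≤ (D : ℤ)) →
      (∀ i, ∀ t ∈ I i, (t : ℝ) ≤ c * k ∧
        (L i t).map (List.map fun x : ℕ => (x : ℤ)) = (F i).map (List.map fun z => z.1 + z.2 * (t : ℤ)) ∧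
        ((L i t).map List.sum).sum = k ∧ (∀ w ∈ L i t, ∀ x ∈ w, δ * k ≤ (x : ℝ)) ∧ |(a i t : ℝ)| ≤ H) →
      ∀ G : Finset (List ℕ),
      (∀ h ∈ G, AdmissibleIndex h ∧ (h.sum : ℝ) ≤ κ * k ∧ ε * k ≤ height h) →
      ∀ b : List ℕ → ℝ, (∀ h ∈ G, |b h| ≤ K ^ k) →
      |∑ i, ∑ t ∈ I i, (a i t : ℝ) * ((L i t).map mzv).prod - ∑ h ∈ G, b h * mzv h| ≤ (B ^ k)⁻¹ →
      ∑ i, ∑ t ∈ I i, (a i t : ℝ) * ((L i t).map mzv).prod = 0 ∧
        ∀ (A : Type) [CommRing A] (Z : List ℕ → A), HasStuffleProduct Z →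
          ∑ i, ∑ t ∈ I i, (a i t : A) * ((L i t).map Z).prod = 0 := by
  rw [mzv_eq]
  obtain ⟨c, B, hc, hB, k0, h0⟩ := Pool.Agent.NH24.DM.lines_thm δ H κ K ε hδ hε s D
  refine ⟨c, B, hc, hB, k0, fun k hk F I L a hF hI G hG b hb hs => ?_⟩
  obtain ⟨h1, h2⟩ := h0 k hk F I L a
    { slope := fun i w hw z hz => (hF i w hw).2 z hz
      ne := fun i w hw => (hF i w hw).1
      It := fun i t ht => (hI i t ht).1
      ev := fun i t ht => (hI i t ht).2.1
      wt := fun i t ht => (hI i t ht).2.2.1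
      arg := fun i t ht => (hI i t ht).2.2.2.1
      coef := fun i t ht => (hI i t ht).2.2.2.2 } G
    (fun h hh => ⟨(adm_small (hG h hh).1).1, (adm_small (hG h hh).1).2, (hG h hh).2.1, (hG h hh).2.2⟩) b hb hs
  refine ⟨h1, fun A _ Z hZ => h2 A Z fun u v hu hv => ?_⟩
  rw [hZ u v ((adm_iff u).1 hu) ((adm_iff v).1 hv), stuffles_eq]

end Pool.Agent.Results.MP_03df5c_nt.RelationsOnLines
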