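import Mathlib
import Pool.Agent.NH83.EP.Main


/-!
# MP_03df5c_nt: real and `p`-adic multiple zeta values with even constant arguments in front

A pattern is a pair `(u, v)` of a list `u` of positive even numbers and a list `v` of letters `(a, b)`, the first of which
has `a ≥ 1`; `v` may be empty. Its value at `n`, in a family `Z`, is the sum of `Z(t, a_1 n + b_1, ..., a_r n + b_r)` over
all `|u|!` rearrangements `t` of `u`. Examples: `u = {2, ..., 2}` (`m` times) gives `m! ζ(2, ..., 2, n + 1, ...)`,
`u = (2, 4)` gives `ζ(2, 4, n) + ζ(4, 2, n)`, `v = ∅`, `u = (2 j)` gives `ζ(2 j)`.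

If an integer polynomial `f` of bounded degree, with coefficients at most `C ^ n`, vanishes or is very small at the values
of the patterns `w_1, ..., w_k` at `n`, `n` large, for the real multiple zeta values, then it vanishes at the values at
all `n' ≥ 2` for all families `Z` in commutative `ℚ`-algebras with the stuffle product and Euler's relations
`Z(2 j) = r_j Z(2) ^ j`, `r_j = ζ(2 j) / ζ(2) ^ j`, for example for the `p`-adic multiple zeta values, for all `p`
(`ζ_p(2 j) = 0`).

In the starting files the constant arguments in front have sum at most three. The proof shows that the value of a pattern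
is a polynomial in `ζ(2)` and in values with a growing first argument, modulo the stuffle product and Euler's relations,
and uses a transcendence measure of `π`.
-/

set_option autoImplicit false

namespace Pool.Agent.Results.MP_03df5c_nt.SymmetricEvenArguments

/-- `trunc [s_1, ..., s_r] m` is the sum of `∏ k_i ^ (-s_i)` over `m > k_1 > ... > k_r ≥ 1` -/
noncomputable def trunc : List ℕ → ℕ → ℝ
  | [], _ => 1
  | s :: l, m => ∑ j ∈ Finset.Ico 1 m, trunc l j / (j : ℝ) ^ s

/-- the multiple zeta value `ζ(s_1, ..., s_r)`, `s_1` belongs to the largest variable -/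
noncomputable def mzv : List ℕ → ℝ
  | [] => 1
  | s :: l => ∑' k : ℕ, trunc l (k + 1) / ((k + 1 : ℕ) : ℝ) ^ s

/-- admissible indices: all entries are at least one, the first one is at least two; the empty index is admissible -/
def AdmissibleIndex (l : List ℕ) : Prop := (∀ a ∈ l, 1 ≤ a) ∧ ∀ a t, l = a :: t → 2 ≤ a

/-- the list of the indices in the stuffle (series) product of two indices -/
def stuffles : List ℕ → List ℕ → List (List ℕ)
  | [], l => [l]
  | i :: k, [] => [i :: k]
  | i :: k, j :: l => (stuffles k (j :: l)).map (i :: ·) ++ (stuffles (i :: k) l).map (j :: ·) ++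
      (stuffles k l).map ((i + j) :: ·)
termination_by k l => k.length + l.length

/-- `Z` has the stuffle product: `Z(∅) = 1` and `Z(k) Z(l) = ∑ Z(m)` over the indices `m` of the stuffle product of `k` and
`l`, for all admissible indices `k` and `l` -/
def HasStuffleProduct {A : Type} [CommRing A] (Z : List ℕ → A) : Prop :=
  Z [] = 1 ∧ ∀ k l : List ℕ, AdmissibleIndex k → AdmissibleIndex l → Z k * Z l = ((stuffles k l).map Z).sum

/-- Euler's relations: if `ζ(2 j) = r ζ(2) ^ j` with a rational number `r`, then `Z(2 j) = r Z(2) ^ j`, for all `j ≥ 1` -/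
def EulerRelations {A : Type} [CommRing A] [Algebra ℚ A] (Z : List ℕ → A) : Prop :=
  ∀ j : ℕ, 1 ≤ j → ∀ r : ℚ, mzv [2 * j] = r * mzv [2] ^ j → Z [2 * j] = r • Z [2] ^ j

/-- patterns: `u` is a list of positive even numbers, the letter `(0, 0)` does not occur in `v`, and the first letter
`(a, b)` of `v`, if there is one, has `a ≥ 1` -/
def Pattern (w : List ℕ × List (ℕ × ℕ)) : Prop :=
  (∀ a ∈ w.1, Even a ∧ 1 ≤ a) ∧ (∀ x ∈ w.2, x ≠ (0, 0)) ∧ ∀ x l, w.2 = x :: l → 1 ≤ x.1

/-- the index with the arguments `a n + b` -/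
def index (n : ℕ) (v : List (ℕ × ℕ)) : List ℕ := v.map fun x => x.1 * n + x.2

/-- the value of a pattern `(u, v)` at `n`: the sum of `Z(t, a_1 n + b_1, ..., a_r n + b_r)` over all `|u|!` rearrangements
`t` of `u` -/
def value {A : Type} [AddCommMonoid A] (Z : List ℕ → A) (n : ℕ) (w : List ℕ × List (ℕ × ℕ)) : A :=
  (w.1.permutations.map fun t => Z (t ++ index n w.2)).sum

open Pool.Agent.NH83.EP
open Pool.Agent.TH507.WG (HP OK ar)

lemma trunc_eq : ∀ l m, trunc l m = Pool.Agent.TH507.WD.hr l m := by
  intro l
  induction l with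
  | nil => intro m; rw [trunc, Pool.Agent.TH507.WD.hr]
  | cons s l ih =>
    intro m
    rw [trunc, Pool.Agent.TH507.WD.hr]
    exact Finset.sum_congr rfl fun j _ => by rw [ih]

lemma mzv_eq : mzv = Pool.Agent.TH507.WD.mz := by
  funext l
  cases l with
  | nil => rw [mzv, Pool.Agent.TH507.WD.mz]
  | cons s l =>
    rw [mzv, Pool.Agent.TH507.WD.mz]
    exact tsum_congr fun k => by rw [trunc_eq]

lemma stuffles_eq : ∀ k l, stuffles k l = Pool.Agent.TH507.DS.stI k l := by
  intro k l
  induction k, l using Pool.Agent.TH507.DS.stI.induct with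
  | case1 l => rw [stuffles, Pool.Agent.TH507.DS.stI]
  | case2 i k => rw [stuffles, Pool.Agent.TH507.DS.stI]
  | case3 i k j l ih1 ih2 ih3 => rw [stuffles, Pool.Agent.TH507.DS.stI, ih1, ih2, ih3]

lemma stI_of {A : Type} [CommRing A] {Z : List ℕ → A} (h : HasStuffleProduct Z) : Pool.Agent.Q217.MZ.StI Z :=
  ⟨h.1, fun k l hk hl => by rw [h.2 k l hk hl, stuffles_eq]⟩

/-- the constant letters of a pattern -/
def cst (u : List ℕ) : List (ℕ × ℕ) := u.map fun b => ((0 : ℕ), b)

lemma value_eq {A : Type} [CommRing A] (Z : List ℕ → A) (n : ℕ) (w : List ℕ × List (ℕ × ℕ)) :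
    value Z n w = sy (fun v => Z (ar n v)) (cst w.1, w.2) := by
  rw [value, sy, permS_eq, cst, ← List.map_permutations', List.map_map]
  refine ((List.permutations_perm_permutations' w.1).map _).sum_eq.trans ?_
  congr 1
  refine List.map_congr_left fun t _ => ?_
  have h1 : (t.map fun b => ((0 : ℕ), b)).map (fun x : ℕ × ℕ => x.1 * n + x.2) = t := by
    rw [List.map_map]
    conv_rhs => rw [← List.map_id t]
    refine List.map_congr_left fun b _ => ?_
    simp
  simp only [Function.comp, ar, List.map_append, index]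
  rw [h1]

lemma good_of {w : List ℕ × List (ℕ × ℕ)} (h : Pattern w) : Good (cst w.1, w.2) := by
  refine ⟨fun x hx => ?_, ?_, fun x hx hx0 => ?_⟩
  · rw [cst, List.mem_map] at hx
    obtain ⟨a, ha, rfl⟩ := hx
    obtain ⟨h1, h2⟩ := h.1 a ha
    refine ⟨rfl, h1, ?_⟩
    obtain ⟨c, hc⟩ := h1
    simp only
    omega
  · cases hv : w.2 with
    | nil => trivial
    | cons x l => exact h.2.2 x l hv
  · have h1 := h.2.1 x hx
    by_contra hcon
    exact h1 (Prod.ext hx0 (by simp only; omega))

lemma EF_of {A : Type} [CommRing A] [Algebra ℚ A] {Z : List ℕ → A} (h1 : HasStuffleProduct Z)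
    (h2 : EulerRelations Z) {n : ℕ} (hn : 2 ≤ n) : EF er fun v => Z (ar n v) where
  one := (Pool.Agent.Q217.MZ.StF_of_StI (stI_of h1) hn).one
  mul := (Pool.Agent.Q217.MZ.StF_of_StI (stI_of h1) hn).mul
  euler := fun j hj => by
    simp only [ar, List.map_cons, List.map_nil, zero_mul, zero_add]
    refine h2 j hj (er j) ?_
    rw [mzv_eq]
    exact er_spec j hj

/-- **Theorem.** Let `w_1, ..., w_k` be patterns and `D ≥ 0`. There are `B, C > 1` and `n0` such that for all `n ≥ n0` and
all integer polynomials `f` of degree at most `D` with coefficients of absolute value at most `C ^ n`: if `f` has absolute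
value at most `B ^ (-n)` at the values of `w_1, ..., w_k` at `n`, for the real multiple zeta values, then, for all
`n' ≥ 2`, `f` vanishes at the values at `n'` for the real multiple zeta values, and for all functions `Z` from the indices
to a commutative `ℚ`-algebra which have the stuffle product and satisfy Euler's relations. -/
theorem result {k : ℕ} (w : Fin k → List ℕ × List (ℕ × ℕ)) (hw : ∀ i, Pattern (w i)) (D : ℕ) :
    ∃ B C : ℝ, 1 < B ∧ 1 < C ∧ ∃ n0 : ℕ, ∀ n : ℕ, n0 ≤ n → ∀ f : MvPolynomial (Fin k) ℤ, f.totalDegree ≤ D →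
      (∀ m, |((f.coeff m : ℤ) : ℝ)| ≤ C ^ n) →
      |MvPolynomial.aeval (fun i => value mzv n (w i)) f| ≤ (B ^ n)⁻¹ →
      ∀ n' : ℕ, 2 ≤ n' → MvPolynomial.aeval (fun i => value mzv n' (w i)) f = 0 ∧
        ∀ (A : Type) [CommRing A] [Algebra ℚ A] (Z : List ℕ → A), HasStuffleProduct Z → EulerRelations Z →
          MvPolynomial.aeval (fun i => value Z n' (w i)) f = 0 := by
  obtain ⟨B, C, hB, hC, n0, h⟩ := main D (fun i => (cst (w i).1, (w i).2)) fun i => good_of (hw i)
  refine ⟨B, C, hB, hC, n0, fun n hn f hf hc hsmall n' hn' => ?_⟩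
  have h1 := h n hn f hf hc (by
    simp only [value_eq] at hsmall
    rwa [mzv_eq] at hsmall)
  refine ⟨?_, fun A _ _ Z hZ hE => ?_⟩
  · simp only [value_eq]
    rw [mzv_eq]
    exact h1 ℝ _ (EF_mz hn')
  · simp only [value_eq]
    exact h1 A _ (EF_of hZ hE hn')

end Pool.Agent.Results.MP_03df5c_nt.SymmetricEvenArguments
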